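import Mathlib
import Pool.Agent.CycNS.Far
import Pool.Agent.CycNS.Labels
import Pool.Agent.CycNS.Six

/-!
# Closed neighbourhood sum parameters of `k C_t`, `k` even, `3 ∣ t`
-/

namespace Pool.Agent.Results.MP_4e56b2_co.EvenCopies

open Pool.Agent.CycNS

/-- Lower deviation: `1` for `t = 3`, otherwise `3`. -/
def lo (t : ℕ) : ℕ := if t = 3 then 1 else 3

/-- Upper deviation: `1` for `t = 3`, `3` for `t = 6`, otherwise `5`. -/
def hi (t : ℕ) : ℕ := if t = 3 then 1 else if t = 6 then 3 else 5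

theorem result (k t : ℕ) (hk : k % 2 = 0) (hk0 : 0 < k) (h3 : 3 ∣ t) (ht : 0 < t)
    {V : Type} [Fintype V] (G : SimpleGraph V) (hG : Nonempty (G ≃g copies k t)) :
    (3 * (k * t + 1) + lo t ≤ 2 * NS G ∧ 2 * NS G ≤ 3 * (k * t + 1) + hi t) ∧
    (3 * (k * t + 1) ≤ 2 * NSm G + hi t ∧ 2 * NSm G + lo t ≤ 3 * (k * t + 1)) ∧
    (lo t ≤ NSsp G ∧ NSsp G ≤ hi t) := by
  obtain ⟨m, rfl⟩ := h3
  obtain ⟨h, rfl⟩ : ∃ h, k = 2 * h := ⟨k / 2, by omega⟩
  obtain ⟨e⟩ := hG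
  have hm : 1 ≤ m := by omega
  obtain ⟨r, hr⟩ : ∃ r, 3 * m = r + 3 := ⟨3 * m - 3, by omega⟩
  have E : CycEnum G (2 * h) (3 * m) := by
    rw [hr] at e ⊢
    exact (copiesEnum (2 * h) r).map e
  have hlo : ((lo (3 * m) : ℕ) : ℤ) = if m = 1 then 1 else 3 := by
    unfold lo
    have c1 : (3 * m = 3) ↔ m = 1 := by omega
    simp only [c1]
    split_ifs <;> rfl
  have hhi : ((hi (3 * m) : ℕ) : ℤ) = 1 + 2 * zstep m := by
    unfold hi zstep
    have c1 : (3 * m = 3) ↔ m = 1 := by omega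
    have c2 : (3 * m = 6) ↔ m = 2 := by omega
    simp only [c1, c2]
    split_ifs <;> norm_num
  have hex : ∃ f, ∀ c j, Bd (3 * ((((2 * h : ℕ) : ℤ) * ((3 * m : ℕ) : ℤ)) + 1)) (1 + 2 * zstep m)
      (E.F f c j + E.F f c (j + 1) + E.F f c (j + 2)) := by
    obtain ⟨lab, l1, l2, l3, l4⟩ := labels_even h m hm
    obtain ⟨f, hf⟩ := E.exists_labeling ht lab l1 l2 l3
    exact ⟨f, fun c j => by rw [hf, hf, hf]; exact l4 c j⟩
  have hlow : ∀ f θ, (∀ c j, θ ≤ E.F f c j + E.F f c (j + 1) + E.F f c (j + 2)) →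
      (if m = 1 then 1 else 3) ≤ 3 * ((((2 * h : ℕ) : ℤ) * ((3 * m : ℕ) : ℤ)) + 1) - 2 * θ := by
    intro f θ hθ
    obtain ⟨b0, b1, b2, b3⟩ := E.low (by omega) ht f θ hθ
    have hpar : (((2 * h : ℕ) : ℤ) * ((3 * m : ℕ) : ℤ)) % 2 = 0 := by
      have : (((2 * h : ℕ) : ℤ) * ((3 * m : ℕ) : ℤ)) = 2 * (3 * h * m) := by
        push_cast; ring
      rw [this]; omega
    by_cases h6 : m = 2
    · subst h6
      have := CycEnum.six E (by omega) (by omega) f θ hθ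
      rw [if_neg (by norm_num)]
      exact this
    generalize (((2 * h : ℕ) : ℤ) * ((3 * m : ℕ) : ℤ)) = N at *
    split_ifs with c1
    · omega
    · have := b2 (by omega)
      omega
  obtain ⟨⟨a1, a2⟩, ⟨a3, a4⟩, a5, a6⟩ := E.squeeze (by omega) (by omega) _ _ hlow hex
  rw [← hlo] at a1 a4 a5
  rw [← hhi] at a2 a3 a6
  refine ⟨⟨?_, ?_⟩, ⟨?_, ?_⟩, ?_, ?_⟩
  · zify; push_cast at *; linarith
  · zify; push_cast at *; linarith
  · zify; push_cast at *; linarith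
  · zify; push_cast at *; linarith
  · zify; linarith
  · zify; linarith

end Pool.Agent.Results.MP_4e56b2_co.EvenCopies
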