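import Mathlib
import Pool.Agent.CycNS.OneSided

/-!
# Closed neighbourhood sums of 2-regular graphs with arbitrary cycle lengths
-/

namespace Pool.Agent.Results.MP_4e56b2_co.MixedLengths

open Pool.Agent.CycNS Finset

private theorem sum_label {V : Type} [Fintype V] (f : V ≃ Fin (Fintype.card V)) :
    2 * ∑ v, (((f v : ℕ) : ℤ) + 1) = Fintype.card V * (Fintype.card V + 1) := by
  have h2 : ∑ v, (((f v : ℕ) : ℤ) + 1) = ∑ i : Fin (Fintype.card V), (((i : ℕ) : ℤ) + 1) :=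
    Equiv.sum_comp f (fun i : Fin (Fintype.card V) => ((i : ℕ) : ℤ) + 1)
  have h3 : ∀ n : ℕ, 2 * ∑ i : Fin n, (((i : ℕ) : ℤ) + 1) = n * (n + 1) := by
    intro n
    rw [Fin.sum_univ_eq_sum_range (fun i => ((i : ℕ) : ℤ) + 1) n]
    induction n with
    | zero => simp
    | succ n ih => rw [Finset.sum_range_succ, mul_add, ih]; push_cast; ring
  rw [h2, h3]

private theorem label_inj {V : Type} [Fintype V] (f : V ≃ Fin (Fintype.card V)) {v w : V}
    (h : ((f v : ℕ) : ℤ) + 1 = ((f w : ℕ) : ℤ) + 1) : v = w := by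
  have h1 : (f v : ℕ) = (f w : ℕ) := by exact_mod_cast add_right_cancel h
  exact f.injective (Fin.ext h1)

private theorem upper {ι : Type} [Fintype ι] (t : ι → ℕ) (ht : ∀ i, 3 ≤ t i) {V : Type}
    [Fintype V] (G : SimpleGraph V) (e : G ≃g cycles t) (T : ℕ) :
    3 * ((∑ i with (¬ 3 ∣ t i ∧ t i ≤ T), t i : ℕ) : ℤ) ^ 2 ≤
      (3 * T + 2) * (Fintype.card V * (2 * NS G - 3 * (Fintype.card V + 1))) + 3 := by
  have : Nonempty (V ≃ Fin (Fintype.card V)) := ⟨Fintype.equivFin V⟩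
  obtain ⟨f, hf⟩ : ∃ f, maxS G f = NS G := exists_eq_ciInf_of_finite
  have h := one_sided t ht e (fun v => ((f v : ℕ) : ℤ) + 1) (fun v w h => label_inj f h)
    (NS G : ℤ) (by
      intro i j
      have h1 := nsum_pl t ht e f i j
      have h2 := le_maxS G f (pl t ht e i (j + 1))
      rw [hf] at h2
      rw [← h1]
      exact_mod_cast h2) T
  have h3 := sum_label f
  refine le_trans h (le_of_eq ?_)
  linear_combination (-3 * (3 * (T : ℤ) + 2)) * h3

private theorem lower {ι : Type} [Fintype ι] (t : ι → ℕ) (ht : ∀ i, 3 ≤ t i) {V : Type}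
    [Fintype V] (G : SimpleGraph V) (e : G ≃g cycles t) (T : ℕ) :
    3 * ((∑ i with (¬ 3 ∣ t i ∧ t i ≤ T), t i : ℕ) : ℤ) ^ 2 ≤
      (3 * T + 2) * (Fintype.card V * (3 * (Fintype.card V + 1) - 2 * NSm G)) + 3 := by
  have : Nonempty (V ≃ Fin (Fintype.card V)) := ⟨Fintype.equivFin V⟩
  obtain ⟨f, hf⟩ : ∃ f, minS G f = NSm G := exists_eq_ciSup_of_finite
  have h := one_sided t ht e (fun v => -(((f v : ℕ) : ℤ) + 1))
    (fun v w h => label_inj f (neg_injective h)) (-(NSm G : ℤ)) (by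
      intro i j
      have h1 := nsum_pl t ht e f i j
      have h2 := minS_le G f (pl t ht e i (j + 1))
      rw [hf] at h2
      have h4 : (NSm G : ℤ) ≤ (nsum G f (pl t ht e i (j + 1)) : ℤ) := by exact_mod_cast h2
      rw [h1] at h4
      linarith) T
  have h3 := sum_label f
  rw [Finset.sum_neg_distrib] at h
  refine le_trans h (le_of_eq ?_)
  linear_combination (3 * (3 * (T : ℤ) + 2)) * h3

/-- Let `G` be a 2-regular graph with `n` vertices, the disjoint union of the cycles `C_{t i}`,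
`i ∈ ι`. Then `NSˢᵖ[G]` is at least twice the number of cycles whose length is not divisible
by 3. Moreover, for every `T`, if the cycles of length at most `T` and not divisible by 3 have `N`
vertices altogether, then `3 N² ≤ (3 T + 2) n (2 NS[G] - 3 (n + 1)) + 3` and
`3 N² ≤ (3 T + 2) n (3 (n + 1) - 2 NS⁻[G]) + 3`. -/
theorem result (ι : Type) [Fintype ι] (t : ι → ℕ) (ht : ∀ i, 3 ≤ t i) (V : Type) [Fintype V]
    (G : SimpleGraph V) (hG : Nonempty (G ≃g cycles t)) :
    2 * (Finset.univ.filter fun i => ¬ 3 ∣ t i).card ≤ NSsp G ∧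
    ∀ T : ℕ,
      3 * ((∑ i with (¬ 3 ∣ t i ∧ t i ≤ T), t i : ℕ) : ℤ) ^ 2 ≤
        (3 * T + 2) * (Fintype.card V * (2 * NS G - 3 * (Fintype.card V + 1))) + 3 ∧
      3 * ((∑ i with (¬ 3 ∣ t i ∧ t i ≤ T), t i : ℕ) : ℤ) ^ 2 ≤
        (3 * T + 2) * (Fintype.card V * (3 * (Fintype.card V + 1) - 2 * NSm G)) + 3 := by
  obtain ⟨e⟩ := hG
  refine ⟨?_, fun T => ⟨upper t ht G e T, lower t ht G e T⟩⟩
  have : Nonempty (V ≃ Fin (Fintype.card V)) := ⟨Fintype.equivFin V⟩
  exact le_ciInf fun f => spread_ge t ht e f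

end Pool.Agent.Results.MP_4e56b2_co.MixedLengths
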