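import Mathlib
import Pool.Agent.CycNS.Far
import Pool.Agent.CycNS.Labels

/-!
# Closed neighbourhood sum parameters of `k C_t`, `k` odd, `3 ∣ t` (in particular of `C_n`, `3 ∣ n`)
-/

namespace Pool.Agent.Results.MP_4e56b2_co.OddCopies

open Pool.Agent.CycNS

/-- The deviation: `0, 1, 2, 2` for `t = 3, 6, 9, 15`, otherwise `3` for even and `4` for odd `t`. -/
def dv (t : ℕ) : ℕ :=
  if t = 3 then 0 else if t = 6 then 1 else if t = 9 ∨ t = 15 then 2 else if t % 2 = 0 then 3 else 4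

theorem result (k t : ℕ) (hk : k % 2 = 1) (h3 : 3 ∣ t) (ht : 0 < t) {V : Type} [Fintype V]
    (G : SimpleGraph V) (hG : Nonempty (G ≃g copies k t)) :
    2 * NS G = 3 * (k * t + 1) + dv t ∧ 2 * NSm G + dv t = 3 * (k * t + 1) ∧ NSsp G = dv t := by
  obtain ⟨m, rfl⟩ := h3
  obtain ⟨h, rfl⟩ : ∃ h, k = 2 * h + 1 := ⟨k / 2, by omega⟩
  obtain ⟨e⟩ := hG
  obtain ⟨r, hr⟩ : ∃ r, 3 * m = r + 3 := ⟨3 * m - 3, by omega⟩
  have hm : 1 ≤ m := by omega
  -- the enumeration of `G`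
  have E : CycEnum G (2 * h + 1) (3 * m) := by
    rw [hr] at e ⊢
    exact (copiesEnum (2 * h + 1) r).map e
  have hdev : ((dv (3 * m) : ℕ) : ℤ) = dev m := by
    unfold dv dev
    have c1 : (3 * m = 3) ↔ m = 1 := by omega
    have c2 : (3 * m = 6) ↔ m = 2 := by omega
    have c3 : (3 * m = 9 ∨ 3 * m = 15) ↔ (m = 3 ∨ m = 5) := by omega
    have c4 : (3 * m % 2 = 0) ↔ m % 2 = 0 := by omega
    simp only [c1, c2, c3, c4]
    split_ifs <;> rfl
  have hex : ∃ f, ∀ c j, Bd (3 * ((((2 * h + 1 : ℕ) : ℤ) * ((3 * m : ℕ) : ℤ)) + 1)) (dev m)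
      (E.F f c j + E.F f c (j + 1) + E.F f c (j + 2)) := by
    obtain ⟨lab, l1, l2, l3, l4⟩ := labels_odd h m hm (dev m) (good_all m hm)
    obtain ⟨f, hf⟩ := E.exists_labeling ht lab l1 l2 l3
    exact ⟨f, fun c j => by rw [hf, hf, hf]; exact l4 c j⟩
  have hlow : ∀ f θ, (∀ c j, θ ≤ E.F f c j + E.F f c (j + 1) + E.F f c (j + 2)) →
      dev m ≤ 3 * ((((2 * h + 1 : ℕ) : ℤ) * ((3 * m : ℕ) : ℤ)) + 1) - 2 * θ := by
    intro f θ hθ
    obtain ⟨b0, b1, b2, b3⟩ := E.low (by omega) ht f θ hθ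
    have hpar : ((((2 * h + 1 : ℕ) : ℤ) * ((3 * m : ℕ) : ℤ)) - m) % 2 = 0 := by
      have : (((2 * h + 1 : ℕ) : ℤ) * ((3 * m : ℕ) : ℤ)) - m = 2 * (3 * h * m + m) := by
        push_cast; ring
      rw [this]; omega
    generalize (((2 * h + 1 : ℕ) : ℤ) * ((3 * m : ℕ) : ℤ)) = N at *
    unfold dev
    split_ifs with c1 c2 c3 c4
    · exact b0
    · exact b1 (by omega)
    · have := b2 (by omega)
      exact this
    · have := b2 (by omega)
      omega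
    · have := b3 (by omega)
      omega
  obtain ⟨⟨a1, a2⟩, ⟨a3, a4⟩, a5, a6⟩ := E.squeeze (by omega) (by omega) (dev m) (dev m) hlow hex
  rw [← hdev] at a1 a2 a3 a4 a5 a6
  refine ⟨?_, ?_, ?_⟩
  · zify; push_cast at *; linarith
  · zify; push_cast at *; linarith
  · zify; linarith

end Pool.Agent.Results.MP_4e56b2_co.OddCopies
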