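import Mathlib
import Pool.Agent.CycNS.Both
import Pool.Agent.CycNS.Labels

/-!
# Closed neighbourhood sums of `k C_t`, `3 ∤ t`: deviations linear in `k`
-/

namespace Pool.Agent.Results.MP_4e56b2_co.PrimeToThree

open Pool.Agent.CycNS

/-- Let `G = k C_t`, `t ≥ 4`, `3 ∤ t`, `n = k t`. Both `2 NS[G] - 3 (n + 1)` and
`3 (n + 1) - 2 NS⁻[G]` lie between `3 n / (3 t + 2)` and `4 k - 1` (`t` even) or `5 k - 1`
(`t` odd), and `NSˢᵖ[G]` lies between the larger one of `2 k` and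
`(3 n - 1) / (4 ⌊(t + 1) / 3⌋ + 2)` and the same number `4 k - 1` or `5 k - 1`. -/
theorem result (k t : ℕ) (hk : 0 < k) (ht : 4 ≤ t) (h3 : ¬ 3 ∣ t)
    {V : Type} [Fintype V] (G : SimpleGraph V) (hG : Nonempty (G ≃g copies k t)) :
    (3 * (k * t : ℤ) ≤ (3 * t + 2) * (2 * NS G - 3 * (k * t + 1)) ∧
      2 * NS G - 3 * (k * t + 1 : ℤ) ≤ (if t % 2 = 0 then 4 else 5) * k - 1) ∧
    (3 * (k * t : ℤ) ≤ (3 * t + 2) * (3 * (k * t + 1) - 2 * NSm G) ∧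
      3 * (k * t + 1 : ℤ) - 2 * NSm G ≤ (if t % 2 = 0 then 4 else 5) * k - 1) ∧
    (2 * k ≤ NSsp G ∧ 3 * (k * t) ≤ (4 * ((t + 1) / 3) + 2) * NSsp G + 1 ∧
      NSsp G + 1 ≤ (if t % 2 = 0 then 4 else 5) * k) := by
  obtain ⟨e⟩ := hG
  have e' : G ≃g cycles (fun _ : Fin k => t) := e.trans (isoCopies k t).symm
  have hn : Fintype.card V = k * t := by
    have := card_pl (fun _ : Fin k => t) e'
    rw [this]; simp
  have hN : (∑ i : Fin k with (¬ 3 ∣ t ∧ t ≤ t), t) = k * t := by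
    simp [h3]
  have hu := upper_mixed (fun _ : Fin k => t) (fun _ => by omega) G e' t
  have hl := lower_mixed (fun _ : Fin k => t) (fun _ => by omega) G e' t
  rw [hN, hn] at hu hl
  have h2k : 2 * k ≤ NSsp G := by
    have : Nonempty (V ≃ Fin (Fintype.card V)) := ⟨Fintype.equivFin V⟩
    have h := le_ciInf fun f => spread_ge (fun _ : Fin k => t) (fun _ => by omega) e' f
    have hc : (Finset.univ.filter fun _ : Fin k => ¬ 3 ∣ t).card = k := by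
      simp [h3]
    rw [hc] at h
    exact h
  have hk1 : (1 : ℤ) ≤ k := by exact_mod_cast hk
  have hs1 : (4 : ℤ) ≤ t := by exact_mod_cast ht
  have hks : (4 : ℤ) ≤ (k : ℤ) * t := by nlinarith
  obtain ⟨r, rfl⟩ : ∃ r, t = r + 3 := ⟨t - 3, by omega⟩
  have E : CycEnum G k (r + 3) := (copiesEnum k r).map e
  have hex : ∃ f, ∀ c j, Bd (3 * (((k : ℤ) * ((r + 3 : ℕ) : ℤ)) + 1))
      (k * (if (r + 3) % 2 = 0 then 3 else 4) + (k - 1))
      (E.F f c j + E.F f c (j + 1) + E.F f c (j + 2)) := by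
    obtain ⟨lab, l1, l2, l3, l4⟩ := labels_scaled k (r + 3) hk ht _
      (goodU_all (r + 3) ht h3)
    obtain ⟨f, hf⟩ := E.exists_labeling (by omega) lab l1 l2 l3
    exact ⟨f, fun c j => by rw [hf, hf, hf]; exact l4 c j⟩
  have hlow : ∀ f θ, (∀ c j, θ ≤ E.F f c j + E.F f c (j + 1) + E.F f c (j + 2)) →
      0 ≤ 3 * (((k : ℤ) * ((r + 3 : ℕ) : ℤ)) + 1) - 2 * θ := by
    intro f θ hθ
    exact (E.low hk (by omega) f θ hθ).1
  obtain ⟨⟨_, a2⟩, ⟨a3, _⟩, _, a6⟩ := E.squeeze hk (by omega) 0 _ hlow hex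
  have key : ∀ X : ℤ, 3 * ((k : ℤ) * ((r + 3 : ℕ) : ℤ)) ^ 2 ≤
      (3 * ((r + 3 : ℕ) : ℤ) + 2) * ((k : ℤ) * ((r + 3 : ℕ) : ℤ) * X) + 3 →
      3 * ((k : ℤ) * ((r + 3 : ℕ) : ℤ)) ≤ (3 * ((r + 3 : ℕ) : ℤ) + 2) * X := by
    intro X hX
    set n : ℤ := (k : ℤ) * ((r + 3 : ℕ) : ℤ) with hndef
    set q : ℤ := (3 * ((r + 3 : ℕ) : ℤ) + 2) with hq
    have h1 : n * (3 * n - q * X) ≤ 3 := by nlinarith
    by_contra hcon
    push Not at hcon
    have h2 : 1 ≤ 3 * n - q * X := by linarith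
    have h4 : n ≤ n * (3 * n - q * X) := by nlinarith
    linarith
  refine ⟨⟨?_, ?_⟩, ⟨?_, ?_⟩, h2k, E.far' hk ht h3, ?_⟩
  · push_cast at hu ⊢
    have := key (2 * NS G - 3 * ((k : ℤ) * ((r + 3 : ℕ) : ℤ) + 1)) (by
      push_cast
      linarith [hu])
    push_cast at this
    linarith
  · push_cast at a2 ⊢
    split_ifs at a2 ⊢ <;> linarith
  · push_cast at hl ⊢
    have := key (3 * ((k : ℤ) * ((r + 3 : ℕ) : ℤ) + 1) - 2 * NSm G) (by
      push_cast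
      linarith [hl])
    push_cast at this
    linarith
  · push_cast at a3 ⊢
    split_ifs at a3 ⊢ <;> linarith
  · by_cases hp : (r + 3) % 2 = 0
    · rw [if_pos hp] at a6 ⊢
      zify; linarith
    · rw [if_neg hp] at a6 ⊢
      zify; linarith

end Pool.Agent.Results.MP_4e56b2_co.PrimeToThree
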